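import Mathlib

set_option autoImplicit false

namespace Pool.Agent.Results.MP_836f85_an.Counter

open Set

/-- B-splines of degree `p` on the knots `ξ 0, ξ 1, …` by the Cox–de Boor recursion -/
noncomputable def B (ξ : ℕ → ℝ) : ℕ → ℕ → ℝ → ℝ
  | 0, i, x => if ξ i ≤ x ∧ x < ξ (i + 1) then 1 else 0
  | p + 1, i, x => (x - ξ i) / (ξ (i + p + 1) - ξ i) * B ξ p i x +
      (ξ (i + p + 2) - x) / (ξ (i + p + 2) - ξ (i + 1)) * B ξ p (i + 1) x

noncomputable def P (j : Fin 4) (x : ℝ) : ℝ :=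
  ![(4 - x) ^ 3 / 6, (3 * (x - 3) ^ 3 - 6 * (x - 3) ^ 2 + 4) / 6,
    (-3 * (x - 3) ^ 3 + 3 * (x - 3) ^ 2 + 3 * (x - 3) + 1) / 6, (x - 3) ^ 3 / 6] j

lemma B0 (x : ℝ) (m : ℕ) (h1 : (m : ℝ) ≤ x) (h2 : x < m + 1) (i : ℕ) :
    B (fun k => (k : ℝ)) 0 i x = if i = m then 1 else 0 := by
  simp only [B]
  congr 1
  apply propext
  constructor
  · rintro ⟨a, b⟩
    have e1 : (i : ℝ) < ((m + 1 : ℕ) : ℝ) := by push_cast; linarith
    have e2 : (m : ℝ) < ((i + 1 : ℕ) : ℝ) := by linarith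
    have := Nat.cast_lt.mp e1
    have := Nat.cast_lt.mp e2
    omega
  · rintro rfl
    exact ⟨h1, by push_cast; linarith⟩

lemma BP (j : Fin 4) (x : ℝ) (hx : x ∈ Icc (3 : ℝ) 4) : B (fun k => (k : ℝ)) 3 j x = P j x := by
  rcases hx.2.lt_or_eq with h | h
  · have h0 := B0 x 3 (by simpa using hx.1) (by norm_num; exact h)
    fin_cases j <;> simp only [B.eq_2, h0, P] <;> norm_num <;> ring
  · subst h
    have h0 := B0 4 4 (by simp) (by norm_num)
    fin_cases j <;> simp only [B.eq_2, h0, P] <;> norm_num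

lemma integ (j : Fin 4) : ∫ t in (3 : ℝ)..4, B (fun k => (k : ℝ)) 3 j t =
    ![1 / 24, 11 / 24, 11 / 24, 1 / 24] j := by
  rw [intervalIntegral.integral_congr (g := P j) fun t ht =>
    BP j t (by rwa [uIcc_of_le (by norm_num)] at ht)]
  have key : ∀ a b c d : ℝ, ∫ t in (3 : ℝ)..4, (a * t ^ 3 + b * t ^ 2 + c * t + d) =
      a * 175 / 4 + b * 37 / 3 + c * 7 / 2 + d := by
    intro a b c d
    rw [intervalIntegral.integral_eq_sub_of_hasDerivAt
      (f := fun t => a * t ^ 4 / 4 + b * t ^ 3 / 3 + c * t ^ 2 / 2 + d * t)]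
    · ring
    · intro t _
      have h := hasDerivAt_id' t
      exact ((((((h.pow 4).const_mul a).div_const 4).add
        (((h.pow 3).const_mul b).div_const 3)).add
        (((h.pow 2).const_mul c).div_const 2)).add (h.const_mul d)).congr_deriv (by simp; ring)
    · exact Continuous.intervalIntegrable (by fun_prop) _ _
  fin_cases j
  · have := key (-1 / 6) 2 (-8) (32 / 3)
    simp only [P]
    convert this using 1
    · congr 1; funext t; simp; ring
    · norm_num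
  · have := key (1 / 2) (-11 / 2) (39 / 2) (-131 / 6)
    simp only [P]
    convert this using 1
    · congr 1; funext t; simp; ring
    · norm_num
  · have := key (-1 / 2) 5 (-16) (50 / 3)
    simp only [P]
    convert this using 1
    · congr 1; funext t; simp; ring
    · norm_num
  · have := key (1 / 6) (-3 / 2) (9 / 2) (-9 / 2)
    simp only [P]
    convert this using 1
    · congr 1; funext t; simp; ring
    · norm_num

theorem result : ∃ (p n : ℕ) (ξ : ℕ → ℝ) (x w a : Fin n → ℝ) (M : ℝ),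
    1 ≤ p ∧ p < n ∧ StrictMono ξ ∧ StrictMono x ∧ (∀ i, x i ∈ Icc (ξ p) (ξ n)) ∧
    (∀ i : Fin n, 0 < B ξ p i (x i)) ∧
    (∀ j : Fin n, ∑ k, w k * B ξ p j (x k) = ∫ t in ξ p..ξ n, B ξ p j t) ∧
    (∀ i : Fin n, ∑ j : Fin n, a j * B ξ p j (x i) = (-1) ^ (i : ℕ)) ∧
    (∀ t ∈ Icc (ξ p) (ξ n), |∑ j : Fin n, a j * B ξ p j t| ≤ M) ∧
    M * ∫ _ in ξ p..ξ n, (1 : ℝ) < ∑ k, |w k| := by
  have hx : ∀ i : Fin 4, ![3, 19 / 6, 23 / 6, 4] i ∈ Icc (3 : ℝ) 4 := by
    intro i; fin_cases i <;> norm_num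
  refine ⟨3, 4, fun k => (k : ℝ), ![3, 19 / 6, 23 / 6, 4], ![-1 / 10, 3 / 5, 3 / 5, -1 / 10],
    ![57, -17, 17, -57], 13 / 10, by norm_num, by norm_num, Nat.strictMono_cast, ?_, ?_, ?_, ?_, ?_,
    ?_, ?_⟩
  · refine Fin.strictMono_iff_lt_succ.mpr fun i => ?_
    fin_cases i <;> simp <;> norm_num
  · simpa using hx
  · intro i
    rw [BP i _ (hx i)]
    fin_cases i <;> norm_num [P]
  · intro j
    simp only [BP j _ (hx _), Nat.cast_ofNat, integ]
    fin_cases j <;> simp [P, Fin.sum_univ_four] <;> norm_num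
  · intro i
    simp only [BP _ _ (hx i)]
    fin_cases i <;> simp [P, Fin.sum_univ_four] <;> norm_num
  · intro t ht
    have ht' : t ∈ Icc (3 : ℝ) 4 := by simpa using ht
    simp only [BP _ _ ht']
    obtain ⟨s, rfl⟩ : ∃ s, t = (s + 7) / 2 := ⟨2 * t - 7, by ring⟩
    have h1 : -1 ≤ s := by linarith [ht'.1]
    have h2 : s ≤ 1 := by linarith [ht'.2]
    have e : ∑ j : Fin 4, ![57, -17, 17, -57] j * P j ((s + 7) / 2) = 7 / 2 * s - 9 / 2 * s ^ 3 := by
      simp [P, Fin.sum_univ_four]; ring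
    rw [e, abs_le]
    constructor
    · nlinarith [mul_nonneg (sub_nonneg.mpr h2) (sq_nonneg (s + 1 / 2))]
    · nlinarith [mul_nonneg (sub_nonneg.mpr h1) (sq_nonneg (s - 1 / 2))]
  · simp [Fin.sum_univ_four]
    norm_num [abs_of_neg, abs_of_pos]

end Pool.Agent.Results.MP_836f85_an.Counter
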